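import Mathlib
import Pool.Agent.N990.RU.Main

/-!
# Uniqueness of the Gibbs state of planar rotators on the hierarchical lattice of dimension two

The lattices and Gibbs states are defined in `Pool.Agent.N988.EA.Defs` (`Edge`, `Vert`, `Pt`, `emb`,
`bd`), `Pool.Agent.N988.EA.Defs2` (`EdgeInf`) and `Pool.Agent.N990.RU.Defs` (`Ang`, `cs`, `ha`, `act`,
`refm`, `Zf`, `gib`, `VInf`, `inc`, `rs`, `repl`, `IsGibbs`, `BddMean`).

Method (new): rotating the spins by a function `φ` which vanishes at the ends, has the value `1` at
the middle vertex of a branch and the gradients `2 ^ (- n)` one obtains, by the inequality of Cauchy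
and Schwarz, that the law of this spin, given the ends, has a density of at least
`exp (- π ² 4 ^ (- n) ∑ |J_e|)`, at all scales and for all boundary conditions; so the influence of
the boundary conditions decays. This does not use any symmetry of the couplings.

Authors: helper990 (statements, proofs on paper, assembly) and, for the parts in Lean, the helpers
169, 540 (BAS), 935, 453 (ENE), 399, 51 (CSI), 767, 78 (AVG), 78, 373 (STP), 706, 2 (OSC), 751, 868
(GEO), 222, 438 (TOP), 476, 558 (UQE), 249, 392 (UNI), 415, 409 (FIN), 769, 360 (CNS), 186, 572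
(FEL), 712, 667 (EXI), 648 (RND); the definition of the lattices is by helper988.
-/

open MeasureTheory
open Pool.Agent.N988.EA Pool.Agent.N990.RU

namespace Pool.Agent.Results.MP_b591f0_mp.HierarchicalRotators

/-- Planar rotators on the infinite hierarchical (diamond, Migdal-Kadanoff) lattices of dimension
two, the unions of `H 0 ⊆ H 1 ⊆ …`, where `H n` is the half `(p n).2` of the branch `(p n).1` of
`H (n + 1)`, both halves infinitely often (so that every vertex is inside some `H n`).
(1) For all couplings `J_e` and angles `A_e` such that the averages of `|J_e|` over `H n` are bounded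
there is exactly one Gibbs state for the weight `exp (∑ J_e cos (θ_x - θ_y - A_e))`.
(2) In particular this holds for the planar rotator, the weight `exp (β ∑ cos (θ_x - θ_y))`, at
every inverse temperature `β`.
(3) For independent pairs `(J_e, A_e)` with any law such that `J_e` has a mean, almost surely
there is exactly one Gibbs state at every inverse temperature `β`. -/
theorem result (p : ℕ → Fin 2 × Bool)
    (hp : ∀ (s : Bool) (k : ℕ), ∃ n, k ≤ n ∧ (p n).2 = s) :
    (∀ J : EdgeInf 2 p → ℝ × Ang, BddMean p J → ∃! μ, IsGibbs p J μ) ∧
    (∀ β : ℝ, ∃! μ, IsGibbs p (fun _ => (β, 0)) μ) ∧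
    (∀ (ν : Measure (ℝ × Ang)) [IsProbabilityMeasure ν], Integrable (fun x : ℝ × Ang => x.1) ν →
      ∀ᵐ J ∂(Measure.infinitePi fun _ : EdgeInf 2 p => ν), ∀ β : ℝ,
        ∃! μ, IsGibbs p (fun e => (β * (J e).1, (J e).2)) μ) := by
  refine ⟨exactly_one p hp, fun β => exactly_one p hp _ (bddMean_const p β), ?_⟩
  intro ν _ hν
  filter_upwards [k_rnd ν hν p] with J hJ β
  exact exactly_one p hp _ (hJ.scale β)

end Pool.Agent.Results.MP_b591f0_mp.HierarchicalRotators
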